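import Pool.Agent.Q120.LD.Kak
import Pool.Agent.Q68.LD.LDA

/-! # Project LD part 2 (helper120), job ALLK (helper177) -/

set_option autoImplicit false

namespace Pool.Agent.Q177.LD

open Finset MeasureTheory Filter Pool.Agent.Q120.LD Pool.Agent.Q68.LD

theorem t_ALLK : J_ALLK := by
  intro h1 h2 h3 h4 θ δ hθ hθ1 hδ hK Ω _ μ _ A hA hD
  obtain ⟨η, hη, hm⟩ := h4 h1 h2 h3 θ δ hθ hθ1 hδ hK
  have hae := transfer (FL θ η) (fun Ω _ A k ω => FL_tr θ η Ω A k ω) δ η hδ hη hm μ A hA hD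
  filter_upwards [hae] with ω hω
  exact level_of (A ω) θ η hη hθ1.le hω θ le_rfl

end Pool.Agent.Q177.LD
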