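import Pool.Agent.Q120.LD.Kak
import Pool.Agent.H353R2.Z2

/-! # Project LD part 2 (helper120), job KAKB (helper177) -/

set_option autoImplicit false

namespace Pool.Agent.Q177.LD

open Finset Filter Pool.Agent.Q120.LD

open Classical in
/-- double counting of the pairs and the moduli -/
theorem pairs_le {C η : ℝ} (hη : 0 < η) (hC : 0 < C)
    (hdiv : ∀ n : ℕ, n ≠ 0 → (n.divisors.card : ℝ) ≤ C * (n : ℝ) ^ η)
    {x : ℕ} (N R : Finset ℕ) (hN : N ⊆ Icc 1 x) :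
    ∑ q ∈ R, ((N.offDiag.filter (fun p => p.1 % q = p.2 % q)).card : ℝ) ≤
      (N.card : ℝ) ^ 2 * (C * (x : ℝ) ^ η) := by
  have e1 : ∑ q ∈ R, ((N.offDiag.filter (fun p => p.1 % q = p.2 % q)).card : ℝ) =
      ∑ p ∈ N.offDiag, ((R.filter (fun q => p.1 % q = p.2 % q)).card : ℝ) := by
    simp only [card_filter, Nat.cast_sum]
    exact sum_comm
  rw [e1]
  have h1 : ∀ p ∈ N.offDiag, ((R.filter (fun q => p.1 % q = p.2 % q)).card : ℝ) ≤
      C * (x : ℝ) ^ η := by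
    intro p hp
    obtain ⟨ha, hb, hab⟩ := mem_offDiag.1 hp
    have ha' := mem_Icc.1 (hN ha)
    have hb' := mem_Icc.1 (hN hb)
    set n : ℕ := ((p.2 : ℤ) - (p.1 : ℤ)).natAbs with hn
    have hn0 : n ≠ 0 := by omega
    have hnx : n ≤ x := by omega
    have h2 : (R.filter (fun q => p.1 % q = p.2 % q)) ⊆ n.divisors := by
      intro q hq
      have h3 : p.1 ≡ p.2 [MOD q] := (mem_filter.1 hq).2
      rw [Nat.modEq_iff_dvd] at h3
      rw [Nat.mem_divisors]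
      exact ⟨Int.natCast_dvd.1 h3, hn0⟩
    calc ((R.filter (fun q => p.1 % q = p.2 % q)).card : ℝ) ≤ (n.divisors.card : ℝ) := by
          exact_mod_cast card_le_card h2
      _ ≤ C * (n : ℝ) ^ η := hdiv n hn0
      _ ≤ C * (x : ℝ) ^ η := by
          refine mul_le_mul_of_nonneg_left ?_ hC.le
          exact Real.rpow_le_rpow (Nat.cast_nonneg _) (by exact_mod_cast hnx) hη.le
  refine (sum_le_sum h1).trans ?_
  rw [sum_const, nsmul_eq_mul]
  refine mul_le_mul_of_nonneg_right ?_ (by positivity)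
  have h4 : N.offDiag.card ≤ N.card ^ 2 := by
    rw [offDiag_card, sq]
    exact Nat.sub_le _ _
  exact_mod_cast h4

open Classical in
/-- one rich modulus has many pairs -/
theorem rich_pairs {l : ℝ} (hl : 2 ≤ l) {N : Finset ℕ} {Q q : ℕ} (hq : q ∈ rich N Q l) :
    l ^ 2 / 2 ≤ ((N.offDiag.filter (fun p => p.1 % q = p.2 % q)).card : ℝ) := by
  unfold rich at hq
  obtain ⟨_, a, ha⟩ := mem_filter.1 hq
  set M : Finset ℕ := N.filter (fun n => n % q = a % q) with hM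
  have h1 : M.offDiag ⊆ N.offDiag.filter (fun p => p.1 % q = p.2 % q) := by
    intro p hp
    obtain ⟨h2, h3, h4⟩ := mem_offDiag.1 hp
    rw [hM, mem_filter] at h2 h3
    rw [mem_filter, mem_offDiag]
    exact ⟨⟨h2.1, h3.1, h4⟩, h2.2.trans h3.2.symm⟩
  have h5 : (M.offDiag.card : ℝ) ≤ ((N.offDiag.filter (fun p => p.1 % q = p.2 % q)).card : ℝ) := by
    exact_mod_cast card_le_card h1
  refine le_trans ?_ h5
  rw [offDiag_card, Nat.cast_sub (Nat.le_mul_self _), Nat.cast_mul]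
  nlinarith

theorem t_KAKB : J_KAKB := by
  intro θ δ hθ hθ1 hδ hδ1
  obtain ⟨η, hη0, hη1, hη2⟩ : ∃ η : ℝ, 0 < η ∧ 20 * η ≤ 1 - θ / 2 - δ ∧ 20 * η ≤ 1 - θ := by
    refine ⟨min (1 - θ / 2 - δ) (1 - θ) / 20, ?_, ?_, ?_⟩
    · have : 0 < min (1 - θ / 2 - δ) (1 - θ) := lt_min (by linarith) (by linarith)
      positivity
    · have := min_le_left (1 - θ / 2 - δ) (1 - θ)
      linarith
    · have := min_le_right (1 - θ / 2 - δ) (1 - θ)
      linarith
  obtain ⟨C, hC, hdiv⟩ := H353.divisor_bound_real η hη0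
  refine ⟨η, hη0, ?_⟩
  have t1 : Tendsto (fun x : ℕ => (x : ℝ) ^ η) atTop atTop :=
    (tendsto_rpow_atTop hη0).comp tendsto_natCast_atTop_atTop
  filter_upwards [eventually_ge_atTop 1, t1.eventually_ge_atTop 2,
    t1.eventually_ge_atTop (2 * C)] with x hx1 hx2 hx3
  intro Q N hQ hQx hN hr
  have hx : (1 : ℝ) ≤ x := by exact_mod_cast hx1
  have hx0 : (0 : ℝ) < x := by linarith
  have hQ0 : (0 : ℝ) < Q := by exact_mod_cast hQ
  set l : ℝ := (x : ℝ) ^ (1 - η) / Q with hl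
  have hl2 : 2 ≤ l := by
    rw [hl, le_div_iff₀ hQ0]
    calc 2 * (Q : ℝ) ≤ (x : ℝ) ^ η * (x : ℝ) ^ θ := by
          apply mul_le_mul hx2 hQx hQ0.le
          positivity
      _ = (x : ℝ) ^ (η + θ) := (Real.rpow_add hx0 _ _).symm
      _ ≤ (x : ℝ) ^ (1 - η) := Real.rpow_le_rpow_of_exponent_le hx (by linarith)
  have h1 := pairs_le hη0 hC hdiv N (rich N Q l) hN
  have h2 : ((rich N Q l).card : ℝ) * (l ^ 2 / 2) ≤
      ∑ q ∈ rich N Q l, ((N.offDiag.filter (fun p => p.1 % q = p.2 % q)).card : ℝ) := by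
    rw [← nsmul_eq_mul]
    exact card_nsmul_le_sum _ _ _ fun q hq => rich_pairs hl2 hq
  have h3 : (x : ℝ) ^ (-η) * Q * (l ^ 2 / 2) ≤ (N.card : ℝ) ^ 2 * (C * (x : ℝ) ^ η) :=
    ((mul_le_mul_of_nonneg_right hr (by positivity)).trans h2).trans h1
  have h4 : (x : ℝ) ^ (-η) * Q * (l ^ 2 / 2) * (2 * Q) = (x : ℝ) ^ (2 - 3 * η) := by
    rw [hl]
    have e1 : ((x : ℝ) ^ (1 - η)) ^ 2 = (x : ℝ) ^ (2 - 2 * η) := by
      rw [← Real.rpow_natCast, ← Real.rpow_mul hx0.le]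
      norm_num
      ring_nf
    have e2 : (x : ℝ) ^ (2 - 3 * η) = (x : ℝ) ^ (-η) * (x : ℝ) ^ (2 - 2 * η) := by
      rw [← Real.rpow_add hx0]
      ring_nf
    rw [e2, ← e1]
    field_simp
  have h5 : (x : ℝ) ^ (2 - 3 * η) ≤ (N.card : ℝ) ^ 2 * (x : ℝ) ^ (2 * η + θ) := by
    rw [← h4]
    calc (x : ℝ) ^ (-η) * Q * (l ^ 2 / 2) * (2 * Q)
        ≤ (N.card : ℝ) ^ 2 * (C * (x : ℝ) ^ η) * (2 * Q) :=
          mul_le_mul_of_nonneg_right h3 (by positivity)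
      _ = (N.card : ℝ) ^ 2 * ((2 * C) * (x : ℝ) ^ η * Q) := by ring
      _ ≤ (N.card : ℝ) ^ 2 * ((x : ℝ) ^ η * (x : ℝ) ^ η * (x : ℝ) ^ θ) := by
          apply mul_le_mul_of_nonneg_left _ (by positivity)
          apply mul_le_mul _ hQx hQ0.le (by positivity)
          exact mul_le_mul_of_nonneg_right hx3 (by positivity)
      _ = (N.card : ℝ) ^ 2 * (x : ℝ) ^ (2 * η + θ) := by
          rw [← Real.rpow_add hx0, ← Real.rpow_add hx0]
          ring_nf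
  have h6 : (x : ℝ) ^ (2 * (δ + η)) ≤ (N.card : ℝ) ^ 2 := by
    have h7 : (x : ℝ) ^ (2 * (δ + η)) * (x : ℝ) ^ (2 * η + θ) ≤
        (N.card : ℝ) ^ 2 * (x : ℝ) ^ (2 * η + θ) := by
      refine le_trans ?_ h5
      rw [← Real.rpow_add hx0]
      exact Real.rpow_le_rpow_of_exponent_le hx (by linarith)
    exact le_of_mul_le_mul_right h7 (by positivity)
  have h8 : ((x : ℝ) ^ (δ + η)) ^ 2 ≤ (N.card : ℝ) ^ 2 := by
    have e1 : ((x : ℝ) ^ (δ + η)) ^ 2 = (x : ℝ) ^ (2 * (δ + η)) := by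
      rw [← Real.rpow_natCast, ← Real.rpow_mul hx0.le]
      norm_num
      ring_nf
    rw [e1]
    exact h6
  exact le_of_sq_le_sq h8 (Nat.cast_nonneg _)

end Pool.Agent.Q177.LD
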